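import Pool.Agent.E8helper92.OQ.Fin
import Pool.Agent.E8helper92.OQ.Mem
import Pool.Agent.E8helper73.OQCopy
import Pool.Agent.E8helper92.OQ.Nb
import Pool.Agent.E8helper89.OQGraph
import Pool.Agent.H642R2.TMSim
import Pool.Agent.NPC.Classes

/-!
# Recognising outer `k`-quasi-planar graphs is NP-complete for every fixed `k ≥ 4`

A graph is outer `k`-quasi-planar if its vertices can be placed on a circle so that no `k` edges
cross pairwise.  The reduction is from monotone not-all-equal satisfiability, by way of a problem
of betweenness type: order a set of clusters so that for each triple `(X, Y, Z)` of a given list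
the cluster `Z` is not between `X` and `Y`.

Write `P = k - 2 ≥ 2`.  The graph consists of a hub of `P + 1` vertices and of many copies of a
gadget.  The gadget has two cliques of `P + 2` block vertices at its ends, blocks of `P` block
vertices and, between any two consecutive blocks, a level of a bus.  Block vertices are adjacent to
the hub, each block is tied only to two guides of each of the two neighbouring levels.  The bus
consists of arcs which join the elements of a level with the same elements of the next level, and
the elements of a cluster with the next elements of the cluster.  In a drawing without `k` pairwise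
crossing edges some copy lies between two consecutive vertices of the hub, and distances force the
levels to be exactly `P` block vertices apart; then the arcs are nested, all levels have the same
order up to reversal and the clusters are contiguous.  One test is a complete bipartite graph
between `P - 1` elements of `X` and `P - 1` elements of `Y` inside a level together with one edge
from the cluster `Z` to the next block: it has `k` pairwise crossing edges if `Z` is between `X`
and `Y`.
-/

namespace Pool.Agent.Results.MP_3c8dce_lc.AllKQuasiHardH92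

open Pool.Agent.NPC Pool.Agent.NPC.H634R2 Pool.Agent.E8helper92.OQ
open Pool.Agent.H619R2.QP (NoTwist)

/-- The edges `e` and `f` cross when the vertices are placed on a circle, in the order given by
`pos`: they have four different endpoints, which alternate. -/
def Crosses (pos : ℕ → ℕ) (e f : ℕ × ℕ) : Prop :=
  (min (pos e.1) (pos e.2) < min (pos f.1) (pos f.2) ∧
    min (pos f.1) (pos f.2) < max (pos e.1) (pos e.2) ∧
    max (pos e.1) (pos e.2) < max (pos f.1) (pos f.2)) ∨
  (min (pos f.1) (pos f.2) < min (pos e.1) (pos e.2) ∧
    min (pos e.1) (pos e.2) < max (pos f.1) (pos f.2) ∧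
    max (pos f.1) (pos f.2) < max (pos e.1) (pos e.2))

/-- The graph with the vertices `V` and the edges `E` is outer `k`-quasi-planar: its vertices have
an order on a circle for which no `k` edges cross pairwise. -/
def OuterQuasiPlanar (k : ℕ) (V : List ℕ) (E : List (ℕ × ℕ)) : Prop :=
  ∃ pos : ℕ → ℕ, (∀ u ∈ V, ∀ v ∈ V, pos u = pos v → u = v) ∧
    ¬ ∃ S : Finset (ℕ × ℕ), S.card = k ∧ (∀ e ∈ S, e ∈ E) ∧
      ∀ e ∈ S, ∀ f ∈ S, e ≠ f → Crosses pos e f

/-- The recognition problem: the input is a finite simple graph. -/
def Recognition (k : ℕ) (G : List ℕ × List (ℕ × ℕ)) : Prop :=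
  IsGraph G.1 G.2 ∧ OuterQuasiPlanar k G.1 G.2

theorem outer_iff {k : ℕ} {V : List ℕ} {E : List (ℕ × ℕ)} : OuterQuasiPlanar k V E ↔
    ∃ pos : ℕ → ℕ, (∀ u ∈ V, ∀ v ∈ V, pos u = pos v → u = v) ∧ NoTwist k E pos := Iff.rfl

theorem inNPP (k : ℕ) : InNPP (Recognition k) := inNPP_recognition k

theorem hardPr_recognition {k : ℕ} (hk : 4 ≤ k) :
    HardPr (fun G : List ℕ × List (ℕ × ℕ) => IsGraph G.1 G.2)
      (fun G => OuterQuasiPlanar k G.1 G.2) := by
  obtain ⟨P, rfl⟩ : ∃ P, k = P + 2 := ⟨k - 2, by omega⟩
  have hP : 2 ≤ P := by omega
  refine Nb.hardPr_NB.trans (f := gr P) (poly_gr P) (fun ts hts => gr_isGraph hts)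
    (fun ts hts => ?_)
  rw [outer_iff, gr_iff]
  constructor
  · exact Pool.Agent.E8helper92.OQ.completeness hP hts
  · rintro ⟨pos, hinj, hnt⟩
    exact Pool.Agent.E8helper92.OQ.sound hP hts hinj hnt

theorem hard_recognition {k : ℕ} (hk : 4 ≤ k) : NPHardP (Recognition k) := by
  have h : HardPr (fun _ => True) (Recognition k) := by
    intro L hL
    obtain ⟨f, hf, hpr, hL⟩ := hardPr_recognition hk L hL
    refine ⟨f, hf, fun _ => trivial, fun x => ?_⟩
    rw [hL x]
    exact ⟨fun h => ⟨hpr x, h⟩, fun h => h.2⟩
  exact h.toHardI.toNPHardP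

/-- **For every fixed `k ≥ 4` it is NP-complete to decide whether a graph is outer
`k`-quasi-planar**, and a polynomial-time algorithm which decides this for all graphs exists if
and only if `P = NP`. -/
theorem result (k : ℕ) (hk : 4 ≤ k) :
    InNPP (Recognition k) ∧ NPHardP (Recognition k) ∧
    ((∃ F : List Bool → List Bool, PolyTime F ∧
        ∀ (V : List ℕ) (E : List (ℕ × ℕ)), IsGraph V E →
          (F (bits (V, E)) = [true] ↔ OuterQuasiPlanar k V E)) ↔
      ∀ L : Set (List Bool), InNP L → InP L) := by
  refine ⟨inNPP k, hard_recognition hk, ?_, ?_⟩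
  · rintro ⟨F, hF, hdec⟩
    intro L hL
    obtain ⟨f, hf, hpr, hL⟩ := hardPr_recognition hk L hL
    refine ⟨fun x => F (bits (f x)), ?_, fun x => ?_⟩
    · have h1 : PC (fun x : List Bool => x) (fun x : List Bool => x) (fun x => bits (f x)) := hf
      exact PC.toPolyTime (PC.comp (g := F) (f := fun x => bits (f x))
        (H642R2.TMSim.polyTime_toPC hF) h1)
    · rw [hL x]
      exact (hdec (f x).1 (f x).2 (hpr x)).symm
  · intro hPNP
    obtain ⟨F, hF, hdec⟩ := hPNP _ (inNPP k)
    refine ⟨F, hF, fun V E hG => ?_⟩
    rw [← hdec]
    constructor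
    · rintro ⟨a, ha, hr⟩
      have hb : a = (V, E) := TEnc.inj (T.enc_injective ha)
      subst hb
      exact hr.2
    · intro h
      exact ⟨(V, E), rfl, hG, h⟩

end Pool.Agent.Results.MP_3c8dce_lc.AllKQuasiHardH92
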